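import Pool.Agent.helper71.EP.SpecE

/-!
Project ep (MP_ebc808_nt), part E, statement EXM: expansion of the model count.
-/

set_option autoImplicit false

open Finset
open scoped Real
open Pool.Agent.helper74.TG

noncomputable section

namespace Pool.Agent.EP

theorem EXM_add (x y : ℝ) : ee (x + y) = ee x * ee y := by
  unfold ee
  rw [← Complex.exp_add]
  congr 1
  push_cast
  ring

theorem EXM_mul (m c c' Q x y : ℕ) : gm m c Q x * gm m c' Q y =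
    ∑ r ∈ Fa Q, ∑ s ∈ Fa Q, Hc m c r.2 r.1 * Hc m c' s.2 s.1 *
      (ee (r.2 * x / r.1) * ee (s.2 * y / s.1)) := by
  unfold gm
  rw [Finset.sum_mul_sum]
  refine Finset.sum_congr rfl fun r _ => Finset.sum_congr rfl fun s _ => ?_
  ring

theorem EXM_cast {m t y T : ℕ} (ht : t ∈ Ioc 0 T) (hy : y ∈ Ioc 0 (Yt m t)) :
    ((hq m t - 1 - 4 * y : ℕ) : ℝ) = (hq m t : ℝ) - 1 - 4 * y := by
  rw [mem_Ioc] at ht hy
  have h1 : 4 * y + 2 ≤ hq m t := by
    have h2 := hy.2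
    unfold Yt at h2
    have h3 : 6 ≤ hq m t := by
      unfold hq
      nlinarith [Nat.zero_le (3 * m * t ^ 2)]
    omega
  rw [Nat.cast_sub (by omega), Nat.cast_sub (by omega)]
  push_cast
  ring

theorem EXM_term {m t y T : ℕ} (ht : t ∈ Ioc 0 T) (hy : y ∈ Ioc 0 (Yt m t)) (r s : Σ _ : ℕ, ℕ) :
    ee (r.2 * (hq m t - 1 - 4 * y : ℕ) / r.1) * ee (s.2 * y / s.1) =
      ee ((r.2 : ℝ) * ((hq m t : ℝ) - 1) / r.1) *
        ee (y * ((s.2 : ℝ) / s.1 - 4 * ((r.2 : ℝ) / r.1))) := by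
  rw [EXM_cast ht hy, ← EXM_add, ← EXM_add]
  congr 1
  ring

theorem EXM : EXM_stmt := by
  intro m c c' T Q
  unfold RR
  calc ∑ t ∈ Ioc 0 T, ∑ y ∈ Ioc 0 (Yt m t), gm m c Q (hq m t - 1 - 4 * y) * gm m c' Q y
      = ∑ t ∈ Ioc 0 T, ∑ y ∈ Ioc 0 (Yt m t), ∑ r ∈ Fa Q, ∑ s ∈ Fa Q,
          Hc m c r.2 r.1 * Hc m c' s.2 s.1 *
          (ee ((r.2 : ℝ) * ((hq m t : ℝ) - 1) / r.1) *
            ee (y * ((s.2 : ℝ) / s.1 - 4 * ((r.2 : ℝ) / r.1)))) := by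
        refine Finset.sum_congr rfl fun t ht => Finset.sum_congr rfl fun y hy => ?_
        rw [EXM_mul]
        refine Finset.sum_congr rfl fun r _ => Finset.sum_congr rfl fun s _ => ?_
        rw [EXM_term ht hy]
    _ = ∑ t ∈ Ioc 0 T, ∑ r ∈ Fa Q, ∑ s ∈ Fa Q, ∑ y ∈ Ioc 0 (Yt m t),
          Hc m c r.2 r.1 * Hc m c' s.2 s.1 *
          (ee ((r.2 : ℝ) * ((hq m t : ℝ) - 1) / r.1) *
            ee (y * ((s.2 : ℝ) / s.1 - 4 * ((r.2 : ℝ) / r.1)))) := by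
        refine Finset.sum_congr rfl fun t _ => ?_
        rw [Finset.sum_comm]
        refine Finset.sum_congr rfl fun r _ => ?_
        rw [Finset.sum_comm]
    _ = ∑ r ∈ Fa Q, ∑ s ∈ Fa Q, ∑ t ∈ Ioc 0 T, ∑ y ∈ Ioc 0 (Yt m t),
          Hc m c r.2 r.1 * Hc m c' s.2 s.1 *
          (ee ((r.2 : ℝ) * ((hq m t : ℝ) - 1) / r.1) *
            ee (y * ((s.2 : ℝ) / s.1 - 4 * ((r.2 : ℝ) / r.1)))) := by
        rw [Finset.sum_comm]
        refine Finset.sum_congr rfl fun r _ => ?_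
        rw [Finset.sum_comm]
    _ = _ := by
        refine Finset.sum_congr rfl fun r _ => Finset.sum_congr rfl fun s _ => ?_
        rw [Finset.mul_sum]
        refine Finset.sum_congr rfl fun t _ => ?_
        rw [Finset.mul_sum, Finset.mul_sum]

end Pool.Agent.EP
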