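import Pool.Agent.helper7.EP.SpecA
import Pool.Agent.helper89.EP.SQ

/-!
Project ep (MP_ebc808_nt), part A: statement MUL (multiplicity).
-/

set_option autoImplicit false

open Finset PowerSeries

noncomputable section

namespace Pool.Agent.EP

theorem MUL_res (B w : ℕ) (t : ℤ) (h : (B : ℤ) ∣ w - t) :
    w = (t % B).toNat + (w / B) * B := by
  have h1 : (w : ℤ) % B = t % B := ((Int.modEq_iff_dvd).2 h : t ≡ w [ZMOD B]).symm
  have h2 : (t % B).toNat = w % B := by
    rw [← h1]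
    exact_mod_cast Int.toNat_natCast (w % B)
  rw [h2, mul_comm, Nat.mod_add_div]

theorem MUL_mem {a j k : ℕ} (hk : k ∈ MuS a j) : ∃ w : ℕ, w % 2 = 1 ∧ w < 2 * 2 ^ a ∧
    k * 2 ^ a = j + 3 * w ^ 2 ∧ (j + 3 * w ^ 2) / 2 ^ a = k := by
  classical
  unfold MuS at hk
  rw [Finset.mem_filter] at hk
  obtain ⟨hk1, w, hw1, hw2, hw3⟩ := hk
  unfold Ks at hk1
  rw [Finset.mem_filter, Finset.mem_range] at hk1
  have e1 : k * 2 ^ a = j + 3 * w ^ 2 := by omega
  refine ⟨w, hw1, ?_, e1, ?_⟩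
  · by_contra hcon
    push Not at hcon
    have e2 : (2 * 2 ^ a) ^ 2 ≤ w ^ 2 := Nat.pow_le_pow_left hcon 2
    have e3 : k * 2 ^ a ≤ (12 * 2 ^ a) * 2 ^ a := Nat.mul_le_mul_right _ (by omega)
    nlinarith
  · rw [← e1]
    exact Nat.mul_div_cancel _ (by positivity)

theorem MUL : MUL_stmt := by
  classical
  intro a j
  rcases Nat.lt_or_ge a 3 with ha | ha
  · have h : MuS a j ⊆ ({1, 3, 5, 7} : Finset ℕ).image fun w => (j + 3 * w ^ 2) / 2 ^ a := by
      intro k hk
      obtain ⟨w, hw1, hw2, -, hw4⟩ := MUL_mem hk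
      have h2 : 2 ^ a ≤ 4 := by
        calc 2 ^ a ≤ 2 ^ 2 := Nat.pow_le_pow_right (by norm_num) (by omega)
          _ = 4 := rfl
      rw [Finset.mem_image]
      refine ⟨w, ?_, hw4⟩
      simp only [Finset.mem_insert, Finset.mem_singleton]
      omega
    refine (Finset.card_le_card h).trans (Finset.card_image_le.trans ?_)
    exact Finset.card_le_four.trans (by norm_num)
  · obtain ⟨b, rfl⟩ : ∃ b, a = b + 3 := ⟨a - 3, by omega⟩
    rcases Finset.eq_empty_or_nonempty (MuS (b + 3) j) with h0 | ⟨k₀, hk₀⟩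
    · rw [h0]
      simp
    obtain ⟨w₀, hv1, -, hv3, -⟩ := MUL_mem hk₀
    set B : ℕ := 2 ^ (b + 2) with hB
    have hB0 : 0 < B := by positivity
    set S : ℤ → Finset ℕ := fun t => (Finset.range 4).image fun i =>
      (j + 3 * ((t % B).toNat + i * B) ^ 2) / 2 ^ (b + 3) with hS
    have hSc : ∀ t, #(S t) ≤ 4 := fun t => Finset.card_image_le.trans (by simp)
    have h : MuS (b + 3) j ⊆ S w₀ ∪ S (-w₀) := by
      intro k hk
      obtain ⟨w, hw1, hw2, hw3, hw4⟩ := MUL_mem hk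
      have hwB : w / B < 4 := by
        rw [Nat.div_lt_iff_lt_mul hB0]
        calc w < 2 * 2 ^ (b + 3) := hw2
          _ = 4 * B := by rw [hB]; ring
      have hmem : ∀ t : ℤ, (B : ℤ) ∣ w - t → k ∈ S t := by
        intro t ht
        rw [hS, Finset.mem_image]
        refine ⟨w / B, Finset.mem_range.2 hwB, ?_⟩
        rw [← MUL_res B w t ht, hw4]
      have e1 : (2 : ℤ) ^ (b + 3) ∣ (w : ℤ) ^ 2 - (w₀ : ℤ) ^ 2 := by
        have e2 : (3 : ℤ) * ((w : ℤ) ^ 2 - (w₀ : ℤ) ^ 2) = 2 ^ (b + 3) * ((k : ℤ) - k₀) := by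
          have f1 : (k : ℤ) * 2 ^ (b + 3) = j + 3 * w ^ 2 := by exact_mod_cast hw3
          have f2 : (k₀ : ℤ) * 2 ^ (b + 3) = j + 3 * w₀ ^ 2 := by exact_mod_cast hv3
          linear_combination f2 - f1
        have e3 : IsCoprime ((2 : ℤ) ^ (b + 3)) 3 := by
          apply IsCoprime.pow_left
          exact ⟨-1, 1, by norm_num⟩
        exact e3.dvd_of_dvd_mul_left ⟨_, e2⟩
      have e4 := (SQ.2 b (w : ℤ) (w₀ : ℤ) (by omega) (by omega)).1 e1
      have hBc : (B : ℤ) = 2 ^ (b + 2) := by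
        rw [hB]
        push_cast
        rfl
      rw [← hBc] at e4
      rw [Finset.mem_union]
      rcases e4 with e4 | e4
      · exact Or.inl (hmem _ e4)
      · exact Or.inr (hmem _ (by rwa [sub_neg_eq_add]))
    refine (Finset.card_le_card h).trans ((Finset.card_union_le _ _).trans ?_)
    have := hSc w₀
    have := hSc (-w₀)
    omega

end Pool.Agent.EP
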